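import Pool.Agent.W51.BS.Stir
import Pool.Agent.W120.VC.Tet
import Pool.Agent.W719.BS.Bound

/-! Strict form of the tangent plane inequality at `(1/6, 1/3, 1/2)` (job FW-A of helper99). -/

set_option autoImplicit false

namespace Pool.Agent.Q151.FW

open Filter Topology Finset
open Pool.Agent.W719.BS (D LL)
open Pool.Agent.W358.BSTay (gg gg_deriv)

lemma LL_der {x : ℝ} (h0 : 0 < x) (h1 : x < 1) : HasDerivAt LL (gg x) x :=
  Pool.Agent.W51.BS.LL_hasDeriv h0 h1

/-- the relation with the Lobachevsky function -/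
lemma lob_LL (x : ℝ) : GapVol.lob (Real.pi * x) = -(Real.pi * LL x) := by
  have hpi := Real.pi_pos
  have h1 := intervalIntegral.integral_comp_mul_left (a := 0) (b := x) (c := Real.pi)
    (fun t => Real.log (2 * Real.sin t)) hpi.ne'
  have h2 : LL x = Real.pi⁻¹ • ∫ t in (Real.pi * 0)..(Real.pi * x), Real.log (2 * Real.sin t) := h1
  rw [mul_zero, smul_eq_mul] at h2
  rw [h2, GapVol.lob]
  have h3 : ∀ t : ℝ, Real.log |2 * Real.sin t| = Real.log (2 * Real.sin t) := fun t => Real.log_abs _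
  simp only [h3]
  field_simp

/-- the tangent plane inequality -/
lemma tan {x y z x' y' z' : ℝ} (hx : 0 < x) (hy : 0 < y) (hz : 0 < z) (hs : x + y + z = 1)
    (hx' : 0 ≤ x') (hy' : 0 ≤ y') (hz' : 0 ≤ z') (hs' : x' + y' + z' = 1) :
    -(LL x' + LL y' + LL z') ≤ -(LL x + LL y + LL z) - (x' - x) * gg x - (y' - y) * gg y
      - (z' - z) * gg z := by
  have hpi := Real.pi_pos
  have h := Pool.Agent.W120.VC.tet (Real.pi * x) (Real.pi * y) (Real.pi * z) (Real.pi * x')
    (Real.pi * y') (Real.pi * z') (by positivity) (by positivity) (by positivity)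
    (by rw [← mul_add, ← mul_add, hs, mul_one]) (by positivity) (by positivity) (by positivity)
    (by rw [← mul_add, ← mul_add, hs', mul_one])
  simp only [lob_LL] at h
  have e1 : Real.log (2 * Real.sin (Real.pi * x)) = gg x := rfl
  have e2 : Real.log (2 * Real.sin (Real.pi * y)) = gg y := rfl
  have e3 : Real.log (2 * Real.sin (Real.pi * z)) = gg z := rfl
  rw [e1, e2, e3] at h
  have h4 : Real.pi * (-(LL x' + LL y' + LL z')) ≤ Real.pi * (-(LL x + LL y + LL z)
      - (x' - x) * gg x - (y' - y) * gg y - (z' - z) * gg z) := by linarith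
  exact le_of_mul_le_mul_left h4 hpi

/-- tangent lines of convex functions -/
lemma tangent {K K' : ℝ → ℝ} {lo hi A x : ℝ} (hK : ∀ t ∈ Set.Ioo lo hi, HasDerivAt K (K' t) t)
    (hm : MonotoneOn K' (Set.Ioo lo hi)) (hA : A ∈ Set.Ioo lo hi) (hx : x ∈ Set.Ioo lo hi) :
    K A + K' A * (x - A) ≤ K x := by
  rcases lt_trichotomy A x with h | h | h
  · have hsub : Set.Icc A x ⊆ Set.Ioo lo hi := fun t ht => ⟨hA.1.trans_le ht.1, ht.2.trans_lt hx.2⟩
    obtain ⟨c, hc, e⟩ := exists_hasDerivAt_eq_slope K K' h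
      (fun t ht => (hK t (hsub ht)).continuousAt.continuousWithinAt)
      (fun t ht => hK t (hsub ⟨ht.1.le, ht.2.le⟩))
    have h1 := hm hA (hsub ⟨hc.1.le, hc.2.le⟩) hc.1.le
    have h2 : 0 < x - A := by linarith
    rw [eq_div_iff h2.ne'] at e
    nlinarith
  · subst h
    simp
  · have hsub : Set.Icc x A ⊆ Set.Ioo lo hi := fun t ht => ⟨hx.1.trans_le ht.1, ht.2.trans_lt hA.2⟩
    obtain ⟨c, hc, e⟩ := exists_hasDerivAt_eq_slope K K' h
      (fun t ht => (hK t (hsub ht)).continuousAt.continuousWithinAt)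
      (fun t ht => hK t (hsub ⟨ht.1.le, ht.2.le⟩))
    have h1 := hm (hsub ⟨hc.1.le, hc.2.le⟩) hA hc.2.le
    have h2 : 0 < A - x := by linarith
    rw [eq_div_iff h2.ne'] at e
    nlinarith

/-- a local quadratic bound -/
lemma quad {lo hi A c x : ℝ} (h0 : 0 ≤ lo) (h1 : hi ≤ 1)
    (hc : ∀ t ∈ Set.Ioo lo hi, c * Real.sin (Real.pi * t) ≤ Real.cos (Real.pi * t))
    (hA : A ∈ Set.Ioo lo hi) (hx : x ∈ Set.Ioo lo hi) :
    LL A + gg A * (x - A) + Real.pi / 2 * c * (x - A) ^ 2 ≤ LL x := by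
  have hpi := Real.pi_pos
  have hd : ∀ t ∈ Set.Ioo lo hi, HasDerivAt (fun t => LL t - Real.pi / 2 * c * (t - A) ^ 2)
      (gg t - Real.pi * c * (t - A)) t := by
    intro t ht
    have h2 := LL_der (h0.trans_lt ht.1) (ht.2.trans_le h1)
    have h3 := ((((hasDerivAt_id t).sub_const A).fun_pow 2).const_mul (Real.pi / 2 * c))
    refine (h2.fun_sub h3).congr_deriv ?_
    simp
    ring
  have hd2 : ∀ t ∈ Set.Ioo lo hi, HasDerivAt (fun t => gg t - Real.pi * c * (t - A))
      (Real.pi * Real.cos (Real.pi * t) / Real.sin (Real.pi * t) - Real.pi * c) t := by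
    intro t ht
    have h2 := gg_deriv t (h0.trans_lt ht.1) (ht.2.trans_le h1)
    have h3 := (((hasDerivAt_id t).sub_const A).const_mul (Real.pi * c))
    refine (h2.fun_sub h3).congr_deriv ?_
    simp
  have hm : MonotoneOn (fun t => gg t - Real.pi * c * (t - A)) (Set.Ioo lo hi) := by
    apply monotoneOn_of_deriv_nonneg (convex_Ioo lo hi)
    · exact fun t ht => (hd2 t ht).continuousAt.continuousWithinAt
    · intro t ht
      rw [interior_Ioo] at ht
      exact (hd2 t ht).differentiableAt.differentiableWithinAt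
    · intro t ht
      rw [interior_Ioo] at ht
      rw [(hd2 t ht).deriv]
      have hs : 0 < Real.sin (Real.pi * t) :=
        Pool.Agent.W51.BS.sin_pos' (h0.trans_lt ht.1) (ht.2.trans_le h1)
      have h4 := hc t ht
      have h5 : c ≤ Real.cos (Real.pi * t) / Real.sin (Real.pi * t) := by
        rw [le_div_iff₀ hs]
        exact h4
      have h6 : Real.pi * Real.cos (Real.pi * t) / Real.sin (Real.pi * t)
          = Real.pi * (Real.cos (Real.pi * t) / Real.sin (Real.pi * t)) := by ring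
      rw [h6]
      nlinarith
  have h := tangent hd hm hA hx
  simp only [sub_self] at h
  linarith

lemma gg_sixth : gg (1 / 6) = 0 := by
  unfold gg
  rw [show Real.pi * (1 / 6) = Real.pi / 6 by ring, Real.sin_pi_div_six]
  norm_num

lemma gg_third : gg (1 / 3) = Real.log 3 / 2 := by
  unfold gg
  rw [show Real.pi * (1 / 3) = Real.pi / 3 by ring, Real.sin_pi_div_three]
  rw [show 2 * (√3 / 2) = √(3 : ℝ) by ring, Real.log_sqrt (by norm_num)]

lemma gg_half : gg (1 / 2) = Real.log 2 := by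
  unfold gg
  rw [show Real.pi * (1 / 2) = Real.pi / 2 by ring, Real.sin_pi_div_two, mul_one]

lemma cot1 {t : ℝ} (h0 : 0 < t) (h1 : t ≤ 1 / 4) :
    1 * Real.sin (Real.pi * t) ≤ Real.cos (Real.pi * t) := by
  have hpi := Real.pi_pos
  have h2 : Real.sin (Real.pi * t) ≤ Real.sin (Real.pi / 4) :=
    Real.sin_le_sin_of_le_of_le_pi_div_two (by nlinarith) (by linarith) (by nlinarith)
  have h3 : Real.cos (Real.pi / 4) ≤ Real.cos (Real.pi * t) :=
    Real.cos_le_cos_of_nonneg_of_le_pi (by positivity) (by linarith) (by nlinarith)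
  rw [Real.sin_pi_div_four] at h2
  rw [Real.cos_pi_div_four] at h3
  linarith

lemma cot2 {t : ℝ} (h0 : 0 < t) (h1 : t ≤ 7 / 20) :
    1 / 4 * Real.sin (Real.pi * t) ≤ Real.cos (Real.pi * t) := by
  have hpi := Real.pi_pos
  have h2 := Real.mul_le_sin (x := Real.pi / 2 - Real.pi * t) (by nlinarith) (by nlinarith)
  rw [Real.sin_pi_div_two_sub] at h2
  have h3 : 2 / Real.pi * (Real.pi / 2 - Real.pi * t) = 1 - 2 * t := by
    field_simp
  rw [h3] at h2
  have h4 := Real.sin_le_one (Real.pi * t)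
  linarith

lemma cot3 {t : ℝ} (h0 : 29 / 60 ≤ t) (h1 : t ≤ 31 / 60) :
    -(1 / 16) * Real.sin (Real.pi * t) ≤ Real.cos (Real.pi * t) := by
  have hpi := Real.pi_pos
  have hpi2 := Real.pi_lt_d2
  have hs : 29 / 30 ≤ Real.sin (Real.pi * t) := by
    rcases le_total t (1 / 2) with h | h
    · have h2 := Real.mul_le_sin (x := Real.pi * t) (by positivity) (by nlinarith)
      have h3 : 2 / Real.pi * (Real.pi * t) = 2 * t := by field_simp
      rw [h3] at h2
      linarith
    · have h2 := Real.mul_le_sin (x := Real.pi * (1 - t)) (by nlinarith) (by nlinarith)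
      have h3 : 2 / Real.pi * (Real.pi * (1 - t)) = 2 * (1 - t) := by field_simp
      rw [h3, show Real.pi * (1 - t) = Real.pi - Real.pi * t by ring, Real.sin_pi_sub] at h2
      linarith
  have hc : -(11 / 200) ≤ Real.cos (Real.pi * t) := by
    rcases le_total t (1 / 2) with h | h
    · have : 0 ≤ Real.cos (Real.pi * t) :=
        Real.cos_nonneg_of_neg_pi_div_two_le_of_le (by nlinarith) (by nlinarith)
      linarith
    · have h2 := Real.sin_le (x := Real.pi * t - Real.pi / 2) (by nlinarith)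
      rw [Real.sin_sub_pi_div_two] at h2
      have h3 : Real.pi * t - Real.pi / 2 ≤ Real.pi / 60 := by nlinarith
      linarith
  linarith

/-- the local form of the strict inequality -/
lemma loc {a b c : ℝ} (hs : a + b + c = 1) (ha : |a - 1 / 6| < 1 / 60) (hb : |b - 1 / 3| < 1 / 60)
    (hc : |c - 1 / 2| < 1 / 60) :
    -(LL a + LL b + LL c) ≤ -(LL (1 / 6) + LL (1 / 3)) - Real.log 3 / 2 * (b - 1 / 3)
      - Real.log 2 * (c - 1 / 2)
      - Real.pi / 64 * ((a - 1 / 6) ^ 2 + (b - 1 / 3) ^ 2 + (c - 1 / 2) ^ 2) := by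
  have hpi := Real.pi_pos
  rw [abs_lt] at ha hb hc
  have h1 := quad (lo := 9 / 60) (hi := 11 / 60) (A := 1 / 6) (c := 1) (x := a) (by norm_num)
    (by norm_num) (fun t ht => cot1 (by linarith [ht.1]) (by linarith [ht.2]))
    ⟨by norm_num, by norm_num⟩ ⟨by linarith, by linarith⟩
  have h2 := quad (lo := 19 / 60) (hi := 21 / 60) (A := 1 / 3) (c := 1 / 4) (x := b) (by norm_num)
    (by norm_num) (fun t ht => cot2 (by linarith [ht.1]) (by linarith [ht.2]))
    ⟨by norm_num, by norm_num⟩ ⟨by linarith, by linarith⟩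
  have h3 := quad (lo := 29 / 60) (hi := 31 / 60) (A := 1 / 2) (c := -(1 / 16)) (x := c) (by norm_num)
    (by norm_num) (fun t ht => cot3 (by linarith [ht.1]) (by linarith [ht.2]))
    ⟨by norm_num, by norm_num⟩ ⟨by linarith, by linarith⟩
  rw [gg_sixth] at h1
  rw [gg_third] at h2
  rw [gg_half, Pool.Agent.W51.BS.LL_half] at h3
  have h4 : (c - 1 / 2) = -((a - 1 / 6) + (b - 1 / 3)) := by linarith
  have h5 : 1 / 32 * ((a - 1 / 6) ^ 2 + (b - 1 / 3) ^ 2 + (c - 1 / 2) ^ 2) ≤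
      (a - 1 / 6) ^ 2 + 1 / 4 * (b - 1 / 3) ^ 2 - 1 / 16 * (c - 1 / 2) ^ 2 := by
    rw [h4]
    nlinarith [sq_nonneg (a - 1 / 6 - (b - 1 / 3)), sq_nonneg (a - 1 / 6), sq_nonneg (b - 1 / 3),
      sq_nonneg (a - 1 / 6 + (b - 1 / 3))]
  have h6 := mul_le_mul_of_nonneg_left h5 (by positivity : 0 ≤ Real.pi / 2)
  linarith

/-- the strict inequality -/
lemma glob {a b c : ℝ} (ha : 0 ≤ a) (hb : 0 ≤ b) (hc : 0 ≤ c) (hs : a + b + c = 1) :
    -(LL a + LL b + LL c) ≤ -(LL (1 / 6) + LL (1 / 3)) - Real.log 3 / 2 * (b - 1 / 3)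
      - Real.log 2 * (c - 1 / 2)
      - Real.pi / 3904 * ((a - 1 / 6) ^ 2 + (b - 1 / 3) ^ 2 + (c - 1 / 2) ^ 2) := by
  obtain ⟨t, ht⟩ : ∃ t : ℝ, t = 1 / 61 := ⟨_, rfl⟩
  have ha1 : a ≤ 1 := by linarith
  have hb1 : b ≤ 1 := by linarith
  have hc1 : c ≤ 1 := by linarith
  have ea : a * t + 1 / 6 * (1 - t) - 1 / 6 = t * (a - 1 / 6) := by ring
  have eb : b * t + 1 / 3 * (1 - t) - 1 / 3 = t * (b - 1 / 3) := by ring
  have ec : c * t + 1 / 2 * (1 - t) - 1 / 2 = t * (c - 1 / 2) := by ring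
  have h1 := loc (a := a * t + 1 / 6 * (1 - t)) (b := b * t + 1 / 3 * (1 - t))
    (c := c * t + 1 / 2 * (1 - t)) (by linear_combination t * hs)
    (by rw [ea, ht, abs_lt]; constructor <;> linarith)
    (by rw [eb, ht, abs_lt]; constructor <;> linarith)
    (by rw [ec, ht, abs_lt]; constructor <;> linarith)
  have h2 := tan (x := a * t + 1 / 6 * (1 - t)) (y := b * t + 1 / 3 * (1 - t))
    (z := c * t + 1 / 2 * (1 - t)) (x' := a) (y' := b) (z' := c)
    (by rw [ht]; linarith) (by rw [ht]; linarith) (by rw [ht]; linarith)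
    (by linear_combination t * hs) ha hb hc hs
  have h3 := tan (x := a * t + 1 / 6 * (1 - t)) (y := b * t + 1 / 3 * (1 - t))
    (z := c * t + 1 / 2 * (1 - t)) (x' := 1 / 6) (y' := 1 / 3) (z' := 1 / 2)
    (by rw [ht]; linarith) (by rw [ht]; linarith) (by rw [ht]; linarith)
    (by linear_combination t * hs) (by norm_num) (by norm_num) (by norm_num) (by norm_num)
  rw [ea, eb, ec] at h1
  rw [Pool.Agent.W51.BS.LL_half] at h3
  have h4 : t * (-(LL a + LL b + LL c)) + (1 - t) * (-(LL (1 / 6) + LL (1 / 3))) ≤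
      -(LL (a * t + 1 / 6 * (1 - t)) + LL (b * t + 1 / 3 * (1 - t)) + LL (c * t + 1 / 2 * (1 - t))) := by
    have h5 := mul_le_mul_of_nonneg_left h2 (show 0 ≤ t by rw [ht]; norm_num)
    have h6 := mul_le_mul_of_nonneg_left h3 (show 0 ≤ 1 - t by rw [ht]; norm_num)
    have h7 := add_le_add h5 h6
    refine le_trans (le_of_eq ?_) (h7.trans (le_of_eq ?_))
    · ring
    · ring
  have h8 : t * (-(LL a + LL b + LL c)) ≤ t * (-(LL (1 / 6) + LL (1 / 3))
      - Real.log 3 / 2 * (b - 1 / 3) - Real.log 2 * (c - 1 / 2)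
      - Real.pi / 3904 * ((a - 1 / 6) ^ 2 + (b - 1 / 3) ^ 2 + (c - 1 / 2) ^ 2)) := by
    have h9 : Real.pi / 64 * ((t * (a - 1 / 6)) ^ 2 + (t * (b - 1 / 3)) ^ 2 + (t * (c - 1 / 2)) ^ 2)
        = t * (Real.pi / 3904 * ((a - 1 / 6) ^ 2 + (b - 1 / 3) ^ 2 + (c - 1 / 2) ^ 2)) := by
      rw [ht]
      ring
    rw [h9] at h1
    linarith
  exact le_of_mul_le_mul_left h8 (by rw [ht]; norm_num)

end Pool.Agent.Q151.FW
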