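import Pool.Agent.Q99.FW.Stm
import Pool.Agent.Q151.FW.Tri0

/-! Job FW-A of helper99: `taskTT : S_TT` and `taskTL : S_TL`. -/

set_option autoImplicit false

namespace Pool.Agent.Q151.FW

open Filter Topology Finset
open Pool.Agent.W719.BS (D LL er PP PP_mid PP_unif D_pos er_tendsto LL_exp LL_cont)
open Pool.Agent.Q99.FW

lemma tri_pos {N x y z : ℕ} (h : x + y + z + 1 = N) : 0 < Tri N x y z := by
  have h1 := D_pos N x (by omega)
  have h2 := D_pos N y (by omega)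
  have h3 := D_pos N z (by omega)
  have hN : (0 : ℝ) < N := by exact_mod_cast (by omega : 0 < N)
  unfold Tri
  positivity

lemma tri_exp {N x y z : ℕ} (h : x + y + z + 1 = N) : √N * Tri N x y z =
    Real.exp (-(N * (LL ((x + 1 / 2) / N) + LL ((y + 1 / 2) / N) + LL ((z + 1 / 2) / N)))
      - (er N x + er N y + er N z)) := by
  have h1 := D_pos N x (by omega)
  have h2 := D_pos N y (by omega)
  have h3 := D_pos N z (by omega)
  have hN : (0 : ℝ) < N := by exact_mod_cast (by omega : 0 < N)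
  have hs : 0 < √(N : ℝ) := Real.sqrt_pos.2 hN
  have h4 : Real.log (√N * Tri N x y z) = Real.log N / 2 + (Real.log N - (Real.log (D N x)
      + Real.log (D N y) + Real.log (D N z))) := by
    rw [Real.log_mul hs.ne' (tri_pos h).ne', Real.log_sqrt hN.le, Tri,
      Real.log_div hN.ne' (by positivity), Real.log_mul (by positivity) h3.ne',
      Real.log_mul h1.ne' h2.ne']
  rw [← Real.exp_log (mul_pos hs (tri_pos h)), h4]
  congr 1
  unfold er
  ring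

/-- the loss by a shift -/
lemma pp_bound {η : ℝ} (hη : 0 < η) : ∃ K : ℝ, ∀ N c : ℕ, c < N →
    PP N c ≤ η * (N * ((c : ℝ) / N - 1 / 2) ^ 2) + K := by
  obtain ⟨N₀, hN₀⟩ := PP_unif (η / 16) (by positivity)
  obtain ⟨B, hB⟩ := (isCompact_Icc : IsCompact (Set.Icc (0 : ℝ) 1)).exists_bound_of_continuousOn
    LL_cont.continuousOn
  have hB0 : 0 ≤ B := (norm_nonneg _).trans (hB 0 ⟨le_rfl, zero_le_one⟩)
  refine ⟨(N₀ + 6) * (2 * B), fun N c hc => ?_⟩
  have hN0 : (0 : ℝ) < N := by exact_mod_cast (by omega : 0 < N)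
  have hq : 0 ≤ η * (N * ((c : ℝ) / N - 1 / 2) ^ 2) := by positivity
  have hK : 0 ≤ ((N₀ : ℝ) + 6) * (2 * B) := by positivity
  by_cases hN : N₀ + 6 ≤ N
  · by_cases hmid : (1 : ℝ) / 4 ≤ c / N ∧ (c : ℝ) / N ≤ 3 / 4
    · have := PP_mid N c (by omega) hmid.1 hmid.2
      linarith
    · have h1 := hN₀ N (by omega) c hc
      have hfar : 1 / 16 ≤ ((c : ℝ) / N - 1 / 2) ^ 2 := by
        rw [not_and_or, not_le, not_le] at hmid
        rcases hmid with h | h <;> nlinarith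
      have h2 : η / 16 * N ≤ η * (N * ((c : ℝ) / N - 1 / 2) ^ 2) := by
        calc η / 16 * N = η * (N * (1 / 16)) := by ring
          _ ≤ _ := by gcongr
      linarith
  · have hN' : (N : ℝ) ≤ N₀ + 6 := by
      have : N ≤ N₀ + 6 := by omega
      exact_mod_cast this
    have hcN : (c : ℝ) + 1 ≤ N := by exact_mod_cast hc
    have h3 : (c : ℝ) / N ∈ Set.Icc (0 : ℝ) 1 :=
      ⟨by positivity, by rw [div_le_one hN0]; linarith⟩
    have h4 : ((c : ℝ) + 1 / 2) / N ∈ Set.Icc (0 : ℝ) 1 :=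
      ⟨by positivity, by rw [div_le_one hN0]; linarith⟩
    have h5 := (abs_le.1 (hB _ h3)).2
    have h6 := (abs_le.1 (hB _ h4)).1
    have h7 : PP N c ≤ N * (2 * B) := by
      unfold PP
      gcongr
      linarith
    have h8 : (N : ℝ) * (2 * B) ≤ (N₀ + 6) * (2 * B) := by gcongr
    linarith

theorem taskTT : S_TT := by
  obtain ⟨C₀, hC₀⟩ := Pool.Agent.W51.BS.task_stir.1
  have hpi := Real.pi_pos
  obtain ⟨κ, hκ⟩ : ∃ κ, κ = Real.pi / 3904 := ⟨_, rfl⟩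
  have hκ0 : 0 < κ := by rw [hκ]; positivity
  obtain ⟨K, hK⟩ := pp_bound (half_pos hκ0)
  refine ⟨Real.exp (3 * C₀ + K + κ / 4), κ / 4, (Real.exp_pos _).le, by positivity, ?_⟩
  intro N x y z h
  have hN : (0 : ℝ) < N := by exact_mod_cast (by omega : 0 < N)
  have hN1 : (1 : ℝ) ≤ N := by exact_mod_cast (by omega : 1 ≤ N)
  rw [tri_exp h, ← Real.exp_add]
  apply Real.exp_le_exp.2
  have e1 : -C₀ ≤ er N x := (abs_le.1 (hC₀ N x (by omega))).1
  have e2 : -C₀ ≤ er N y := (abs_le.1 (hC₀ N y (by omega))).1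
  have e3 : -C₀ ≤ er N z := (abs_le.1 (hC₀ N z (by omega))).1
  have hsum : (x : ℝ) + y + z + 1 = N := by exact_mod_cast h
  have hg := glob (a := ((x : ℝ) + 1 / 2) / N) (b := ((y : ℝ) + 1 / 2) / N) (c := (z : ℝ) / N)
    (by positivity) (by positivity) (by positivity) (by
      field_simp
      linarith)
  have hg2 := mul_le_mul_of_nonneg_left hg hN.le
  have hp := hK N z (by omega)
  have hpp : PP N z = N * (LL (z / N) - LL ((z + 1 / 2) / N)) := rfl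
  rw [← hκ] at hg2
  -- the quadratic terms
  have q1 : (N : ℝ) * (((x : ℝ) + 1 / 2) / N - 1 / 6) ^ 2 = (x - N / 6 + 1 / 2) ^ 2 / N := by
    field_simp
    ring
  have q2 : (N : ℝ) * (((y : ℝ) + 1 / 2) / N - 1 / 3) ^ 2 = (y - N / 3 + 1 / 2) ^ 2 / N := by
    field_simp
    ring
  have q3 : (N : ℝ) * ((z : ℝ) / N - 1 / 2) ^ 2 = (z - N / 2) ^ 2 / N := by
    field_simp
  have r1 : (N : ℝ) * (((y : ℝ) + 1 / 2) / N - 1 / 3) = y - N / 3 + 1 / 2 := by
    field_simp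
    ring
  have r2 : (N : ℝ) * ((z : ℝ) / N - 1 / 2) = z - N / 2 := by
    field_simp
  have s1 : ((x : ℝ) - N / 6) ^ 2 / N / 2 - 1 / 4 ≤ ((x : ℝ) - N / 6 + 1 / 2) ^ 2 / N := by
    have a1 : ((x : ℝ) - N / 6) ^ 2 / 2 - 1 / 4 ≤ ((x : ℝ) - N / 6 + 1 / 2) ^ 2 := by
      nlinarith [sq_nonneg ((x : ℝ) - N / 6 + 1)]
    have a2 : (((x : ℝ) - N / 6) ^ 2 / 2 - 1 / 4) / N ≤ ((x : ℝ) - N / 6 + 1 / 2) ^ 2 / N := by
      gcongr
    have a3 : (1 : ℝ) / 4 / N ≤ 1 / 4 := div_le_self (by norm_num) hN1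
    have a4 : (((x : ℝ) - N / 6) ^ 2 / 2 - 1 / 4) / N = ((x : ℝ) - N / 6) ^ 2 / N / 2 - 1 / 4 / N := by
      ring
    linarith
  have s2 : ((y : ℝ) - N / 3) ^ 2 / N / 2 - 1 / 4 ≤ ((y : ℝ) - N / 3 + 1 / 2) ^ 2 / N := by
    have a1 : ((y : ℝ) - N / 3) ^ 2 / 2 - 1 / 4 ≤ ((y : ℝ) - N / 3 + 1 / 2) ^ 2 := by
      nlinarith [sq_nonneg ((y : ℝ) - N / 3 + 1)]
    have a2 : (((y : ℝ) - N / 3) ^ 2 / 2 - 1 / 4) / N ≤ ((y : ℝ) - N / 3 + 1 / 2) ^ 2 / N := by
      gcongr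
    have a3 : (1 : ℝ) / 4 / N ≤ 1 / 4 := div_le_self (by norm_num) hN1
    have a4 : (((y : ℝ) - N / 3) ^ 2 / 2 - 1 / 4) / N = ((y : ℝ) - N / 3) ^ 2 / N / 2 - 1 / 4 / N := by
      ring
    linarith
  have s3 : 0 ≤ ((z : ℝ) - N / 2) ^ 2 / N := by positivity
  have s4 := mul_le_mul_of_nonneg_left s1 hκ0.le
  have s5 := mul_le_mul_of_nonneg_left s2 hκ0.le
  have s6 := mul_nonneg hκ0.le s3
  have s7 : 0 ≤ κ * (((x : ℝ) - N / 6 + 1 / 2) ^ 2 / N) := by positivity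
  have s8 : 0 ≤ κ * (((y : ℝ) - N / 3 + 1 / 2) ^ 2 / N) := by positivity
  rw [q3] at hp
  have hlog3 : 0 ≤ Real.log 3 := Real.log_nonneg (by norm_num)
  have t1 : (N : ℝ) * (-(LL (1 / 6) + LL (1 / 3)) - Real.log 3 / 2 * ((y + 1 / 2) / N - 1 / 3)
      - Real.log 2 * (z / N - 1 / 2) - κ * (((x + 1 / 2) / N - 1 / 6) ^ 2 +
        ((y + 1 / 2) / N - 1 / 3) ^ 2 + (z / N - 1 / 2) ^ 2))
      = N * V0 - Real.log 3 / 2 * (y - N / 3 + 1 / 2) - Real.log 2 * (z - N / 2)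
        - κ * ((x - N / 6 + 1 / 2) ^ 2 / N) - κ * ((y - N / 3 + 1 / 2) ^ 2 / N)
        - κ * ((z - N / 2) ^ 2 / N) := by
    rw [← q1, ← q2, ← q3, ← r1, ← r2, V0]
    ring
  rw [t1] at hg2
  have t2 : κ / 4 * (((x : ℝ) - N / 6) ^ 2 + ((y : ℝ) - N / 3) ^ 2 + ((z : ℝ) - N / 2) ^ 2) / N
      = κ / 4 * (((x : ℝ) - N / 6) ^ 2 / N) + κ / 4 * (((y : ℝ) - N / 3) ^ 2 / N)
        + κ / 4 * (((z : ℝ) - N / 2) ^ 2 / N) := by ring
  have t3 : -κ / 4 * (((x : ℝ) - N / 6) ^ 2 + ((y : ℝ) - N / 3) ^ 2 + ((z : ℝ) - N / 2) ^ 2) / N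
      = -(κ / 4 * (((x : ℝ) - N / 6) ^ 2 + ((y : ℝ) - N / 3) ^ 2 + ((z : ℝ) - N / 2) ^ 2) / N) := by
    ring
  rw [t2]
  rw [hpp] at hp
  linarith

theorem taskTL : S_TL := by
  intro x y z X Y hsum hX hY
  have hST := Pool.Agent.W51.BS.task_stir
  have hTAY := Pool.Agent.W358.BSTay.tay
  have hsq : Tendsto (fun N : ℕ => √(N : ℝ)) atTop atTop :=
    Real.tendsto_sqrt_atTop.comp tendsto_natCast_atTop_atTop
  have hZ : Tendsto (fun N : ℕ => ((z N : ℝ) - 1 / 2 * N) / √N) atTop (𝓝 (-X - Y - 0)) := by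
    refine ((hX.neg.sub hY).sub (tendsto_inv_atTop_zero.comp hsq)).congr' ?_
    filter_upwards [hsum] with N hN
    have h1 : (x N : ℝ) + y N + z N + 1 = N := by exact_mod_cast hN
    have h2 : (z N : ℝ) - 1 / 2 * N = -((x N : ℝ) - 1 / 6 * N) - ((y N : ℝ) - 1 / 3 * N) - 1 := by
      linarith
    rw [h2]
    simp only [Function.comp]
    ring
  have E1 := er_tendsto hST x (1 / 6) (by norm_num) (by norm_num)
    (Pool.Agent.W719.BS.ratio_of_sq _ _ _ hX)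
  have E2 := er_tendsto hST y (1 / 3) (by norm_num) (by norm_num)
    (Pool.Agent.W719.BS.ratio_of_sq _ _ _ hY)
  have E3 := er_tendsto hST z (1 / 2) (by norm_num) (by norm_num)
    (Pool.Agent.W719.BS.ratio_of_sq _ _ _ hZ)
  have T1 := LL_exp hTAY (1 / 6) (by norm_num) (by norm_num) _ X hX
  have T2 := LL_exp hTAY (1 / 3) (by norm_num) (by norm_num) _ Y hY
  have T3 := LL_exp hTAY (1 / 2) (by norm_num) (by norm_num) _ _ hZ
  have a1 : Real.pi * (1 / 6) = Real.pi / 6 := by ring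
  have a2 : Real.pi * (1 / 3) = Real.pi / 3 := by ring
  have a3 : Real.pi * (1 / 2) = Real.pi / 2 := by ring
  have s3 : 0 < √(3 : ℝ) := by positivity
  have l1 : Real.log (2 * Real.sin (Real.pi * (1 / 6))) = 0 := gg_sixth
  have l2 : Real.log (2 * Real.sin (Real.pi * (1 / 3))) = Real.log 3 / 2 := gg_third
  have l3 : Real.log (2 * Real.sin (Real.pi * (1 / 2))) = Real.log 2 := gg_half
  have k1 : Real.pi * Real.cos (Real.pi * (1 / 6)) / (2 * Real.sin (Real.pi * (1 / 6))) * X ^ 2 =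
      Real.pi / 2 * (√3 * X ^ 2) := by
    rw [a1, Real.cos_pi_div_six, Real.sin_pi_div_six]
    ring
  have k2 : Real.pi * Real.cos (Real.pi * (1 / 3)) / (2 * Real.sin (Real.pi * (1 / 3))) * Y ^ 2 =
      Real.pi / 2 * (Y ^ 2 / √3) := by
    rw [a2, Real.cos_pi_div_three, Real.sin_pi_div_three]
    field_simp
  have k3 : Real.pi * Real.cos (Real.pi * (1 / 2)) / (2 * Real.sin (Real.pi * (1 / 2))) *
      (-X - Y - 0) ^ 2 = 0 := by
    rw [a3, Real.cos_pi_div_two]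
    simp
  rw [l1, k1] at T1
  rw [l2, k2] at T2
  rw [l3, k3] at T3
  have F := (((T1.add T2).add T3).neg.sub ((E1.add E2).add E3)).sub_const
    (Real.log 3 / 4 + Real.log 2 / 2)
  have G := F.rexp
  have hlim : Real.exp (-(Real.pi / 2 * (√3 * X ^ 2) + Real.pi / 2 * (Y ^ 2 / √3) + 0) -
      (0 + 0 + 0) - (Real.log 3 / 4 + Real.log 2 / 2)) =
      1 / √(2 * √3) * Real.exp (-(Real.pi / 2) * (√3 * X ^ 2 + Y ^ 2 / √3)) := by
    have h1 : 1 / √(2 * √3) = Real.exp (-(Real.log 3 / 4 + Real.log 2 / 2)) := by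
      have h2 : Real.log √(2 * √3) = Real.log 3 / 4 + Real.log 2 / 2 := by
        rw [Real.log_sqrt (by positivity), Real.log_mul (by norm_num) s3.ne',
          Real.log_sqrt (by norm_num)]
        ring
      rw [Real.exp_neg, ← h2, Real.exp_log (by positivity), one_div]
    rw [h1, ← Real.exp_add]
    congr 1
    ring
  rw [hlim] at G
  refine G.congr' ?_
  filter_upwards [hsum, eventually_ge_atTop 1] with N h hN
  rw [tri_exp h, ← Real.exp_add]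
  congr 1
  rw [V0, Pool.Agent.W51.BS.LL_half]
  ring

end Pool.Agent.Q151.FW
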